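import Pool.Agent.H912R3.Ehr.Lim

/-!
# Ehrhart's volume conjecture

Let `L ⊆ ℝᵈ` be a lattice with basis `b` and `K` a convex body with centroid `0` and
`int K ∩ L = {0}`. Then `vol(K) ≤ (d+1)ᵈ / d! · |det b|`.
-/

set_option autoImplicit false

open MeasureTheory Set Module

namespace Pool.Agent.Results.MP_4c844b_co.EhrhartVolume

open Pool.Agent.H912R3.Ehr

theorem result (d : ℕ) (hd : 1 ≤ d) (b : Fin d → (Fin d → ℝ)) (hb : LinearIndependent ℝ b)
    (K : Set (Fin d → ℝ)) (hK : IsCompact K) (hKc : Convex ℝ K)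
    (hz : ∫ x in K, x = 0)
    (hL : interior K ∩ {x | ∃ z : Fin d → ℤ, x = ∑ j, (z j : ℝ) • b j} = {0}) :
    volume.real K ≤ ((d : ℝ) + 1) ^ d / d.factorial * |(Matrix.of b).det| := by
  classical
  have hcard : Fintype.card (Fin d) = finrank ℝ (Fin d → ℝ) := by simp
  have : Nonempty (Fin d) := ⟨⟨0, hd⟩⟩
  let bb : Basis (Fin d) ℝ (Fin d → ℝ) := basisOfLinearIndependentOfCardEqFinrank hb hcard
  have hbb : ⇑bb = b := coe_basisOfLinearIndependentOfCardEqFinrank hb hcard
  let T : (Fin d → ℝ) ≃ₗ[ℝ] (Fin d → ℝ) := bb.equivFun.symm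
  have hT : ∀ y, T y = ∑ j, y j • b j := by
    intro y
    rw [← hbb]
    exact bb.equivFun_symm_apply y
  let Tc : (Fin d → ℝ) ≃L[ℝ] (Fin d → ℝ) := T.toContinuousLinearEquiv
  have hTc : ∀ y, Tc y = T y := fun _ => rfl
  have hdet : LinearMap.det (T : (Fin d → ℝ) →ₗ[ℝ] (Fin d → ℝ)) = (Matrix.of b).det := by
    have h1 : (T : (Fin d → ℝ) →ₗ[ℝ] (Fin d → ℝ)) = Matrix.toLin' (Matrix.of b).transpose := by
      apply LinearMap.ext
      intro y
      funext i
      rw [LinearEquiv.coe_coe, hT, Matrix.toLin'_apply, Matrix.mulVec, Finset.sum_apply]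
      simp only [dotProduct, Matrix.transpose_apply, Matrix.of_apply, Pi.smul_apply, smul_eq_mul]
      exact Finset.sum_congr rfl fun j _ => mul_comm _ _
    rw [h1, LinearMap.det_toLin', Matrix.det_transpose]
  have hdet0 : (Matrix.of b).det ≠ 0 := by
    rw [← hdet]
    exact (LinearEquiv.isUnit_det' T).ne_zero
  set K' : Set (Fin d → ℝ) := T ⁻¹' K with hK'
  have himg : T '' K' = K := by
    rw [hK']
    exact Set.image_preimage_eq K T.surjective
  have hvol : volume.real K = |(Matrix.of b).det| * volume.real K' := by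
    have h1 : volume (T '' K') = ENNReal.ofReal |(Matrix.of b).det| * volume K' := by
      have := Measure.addHaar_image_linearMap (volume : Measure (Fin d → ℝ))
        (T : (Fin d → ℝ) →ₗ[ℝ] (Fin d → ℝ)) K'
      rw [hdet] at this
      exact this
    rw [himg] at h1
    rw [Measure.real, h1, ENNReal.toReal_mul, ENNReal.toReal_ofReal (abs_nonneg _), Measure.real]
  have hK'c : IsCompact K' := by
    have : K' = Tc.symm '' K := by
      rw [hK']
      ext y
      constructor
      · intro hy
        exact ⟨T y, hy, Tc.symm_apply_apply y⟩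
      · rintro ⟨x, hx, rfl⟩
        show T (Tc.symm x) ∈ K
        have : T (Tc.symm x) = x := Tc.apply_symm_apply x
        rw [this]; exact hx
    rw [this]
    exact hK.image Tc.symm.continuous
  have hK'v : Convex ℝ K' := hKc.linear_preimage (T : (Fin d → ℝ) →ₗ[ℝ] (Fin d → ℝ))
  have hint : ∀ y, y ∈ interior K' ↔ T y ∈ interior K := by
    intro y
    have h1 : interior K' = Tc ⁻¹' interior K := by
      have := Tc.toHomeomorph.preimage_interior K
      exact this.symm
    rw [h1]
    rfl
  have h0 : (0 : Fin d → ℝ) ∈ interior K := by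
    have : (0 : Fin d → ℝ) ∈ interior K ∩ {x | ∃ z : Fin d → ℤ, x = ∑ j, (z j : ℝ) • b j} := by
      rw [hL]; exact mem_singleton _
    exact this.1
  have hz' : ∀ i, ∫ y in K', y i = 0 := by
    have h1 : ∫ x in T '' K', x = ∫ y in K', |(Matrix.of b).det| • T y := by
      have := integral_image_eq_integral_abs_det_fderiv_smul (volume : Measure (Fin d → ℝ))
        (s := K') (f := T) (f' := fun _ => (Tc : (Fin d → ℝ) →L[ℝ] (Fin d → ℝ)))
        hK'c.measurableSet (fun x _ => Tc.hasFDerivWithinAt) (T.injective.injOn) (fun x => x)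
      rw [this]
      refine setIntegral_congr_fun hK'c.measurableSet fun y _ => ?_
      show |(Tc : (Fin d → ℝ) →L[ℝ] (Fin d → ℝ)).det| • T y = _
      have h2 : (Tc : (Fin d → ℝ) →L[ℝ] (Fin d → ℝ)).det = (Matrix.of b).det := by
        rw [← hdet]; rfl
      rw [h2]
    have hi : IntegrableOn (fun y : Fin d → ℝ => y) K' :=
      continuous_id.continuousOn.integrableOn_compact hK'c
    rw [himg, hz, integral_smul] at h1
    have h2 : ∫ y in K', T y = T (∫ y in K', y) :=
      (Tc : (Fin d → ℝ) →L[ℝ] (Fin d → ℝ)).integral_comp_comm hi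
    rw [h2] at h1
    have h3 : T (∫ y in K', y) = 0 := by
      rcases smul_eq_zero.1 h1.symm with h | h
      · exact absurd (abs_eq_zero.1 h) hdet0
      · exact h
    have h4 : ∫ y in K', y = 0 := by
      have := T.injective (h3.trans (map_zero T).symm)
      exact this
    intro i
    have h5 : ∫ y in K', y i = (∫ y in K', y) i :=
      (ContinuousLinearMap.proj (R := ℝ) (φ := fun _ : Fin d => ℝ) i).integral_comp_comm hi
    rw [h5, h4]
    rfl
  have h0' : (0 : Fin d → ℝ) ∈ interior K' := by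
    rw [hint, map_zero]; exact h0
  have hL' : ∀ z : Fin d → ℤ, (fun i => (z i : ℝ)) ∈ interior K' → z = 0 := by
    intro z hzK
    rw [hint, hT] at hzK
    have h1 : (∑ j, (z j : ℝ) • b j) ∈ interior K ∩
        {x | ∃ z : Fin d → ℤ, x = ∑ j, (z j : ℝ) • b j} := ⟨hzK, z, rfl⟩
    rw [hL, mem_singleton_iff] at h1
    have h2 := Fintype.linearIndependent_iff.1 hb (fun j => (z j : ℝ)) h1
    funext j
    exact_mod_cast h2 j
  have hmain := ehrhart_int hd hK'c hK'v hz' h0' hL'
  rw [hvol, mul_comm]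
  exact mul_le_mul_of_nonneg_right hmain (abs_nonneg _)

end Pool.Agent.Results.MP_4c844b_co.EhrhartVolume
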